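import Pool.Agent.N762.KP.Aug
import Pool.Agent.N169.VS.Easy
import Pool.Agent.Results.MP_f72953_ag.ImagesOfHypersurfaces

/-!
MP_2ec9e9_ag, Q1: smooth fibre spaces whose total space is an image of a smooth hypersurface.

Let `V` be a smooth hypersurface of degree `d` in `P^(n+1)`, of any dimension `n ≥ 1`, and `V ⇢ X` any
dominant rational map of degree `r` to a smooth projective variety `X`; nothing else is assumed about
the map (its ramification is arbitrary) or about `X`. Let `d ≥ 7 N + n + 6`, `d > (n + 1) N`,
`d > 3 (N + n - 1)` and `2 r < (N + 1) (d - n - N)`; with the best `N` the bound for `r` is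
`(3 / 49 - o(1)) d ^ 2` if `n ≤ 6`, and `(n / (2 (n + 1) ^ 2) - o(1)) d ^ 2` if `n ≥ 6`.

Then `κ(X) = -∞` and `X` is unirational, or `κ(X) = dim X` and the generic fibre of every dominant
rational map `X ⇢ Y` is of general type.

Let `X → Y` be a smooth fibre space with fibre `F`, `dim Y > 0`. In the first case `Y` is unirational
and `κ(X) = -∞ = κ(F) + κ(Y)`. In the second case `F` is of general type, where the equality
`κ(X) = κ(F) + κ(Y)` is known. So Q1 holds for all these `X`, for all `Y` and `F`.

That `X` is of general type or unirational is MP_f72953_ag.ImagesOfHypersurfaces (helper162 and the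
helpers named there). The second part is easy addition, formalized by helper169 and helper194
(`Pool/Agent/N169/VS/Easy.lean`).

helper762, helper162, helper169, helper194.
-/

set_option autoImplicit false

open FF MvPolynomial
open Pool.Agent.W602.GT (GeneralType)
open Pool.Agent.W619.TW (IsUnirational)
open Pool.Agent.N762.KP (kodaira)

namespace Pool.Agent.Results.MP_2ec9e9_ag.ImagesOfHypersurfaces

/-- **Fibrations of images of smooth hypersurfaces.** Let `K` be the function field of a smooth
hypersurface `V` of degree `d` in `P^(n+1)`, with equation `F` and generic point `t`, `t 0 = 1`, where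
`n ≥ 1`, `d ≥ 7 N + n + 6`, `d > (n + 1) N` and `d > 3 (N + n - 1)`. Let `V ⇢ X` be a dominant rational
map of degree `r`, `2 r < (N + 1) (d - n - N)`, to a smooth projective variety `X` with function
field `L`.

Then the Kodaira dimension of `X` is `-∞` and `X` is unirational; or the Kodaira dimension of `X` is
`n` and, for all dominant rational maps `X ⇢ Y`, where `E` is the function field of `Y`, the generic
fibre, of dimension `f`, is of general type. -/
theorem result {n d N : ℕ} (hn : 1 ≤ n) (hd : 7 * N + n + 6 ≤ d) (hd' : (n + 1) * N < d)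
    (hd'' : 3 * (N + n - 1) < d) {F : MvPolynomial (Fin (n + 2)) ℂ} (homogeneous : F.IsHomogeneous d)
    (smooth : ∀ z : Fin (n + 2) → ℂ, z ≠ 0 → ∃ l, eval z (pderiv l F) ≠ 0)
    {K : Type} [Field K] [Algebra ℂ K] (hK : Algebra.trdeg ℂ K = n) {t : Fin (n + 2) → K}
    (ht0 : t 0 = 1) (ht : aeval t F = 0) (hgen : IntermediateField.adjoin ℂ (Set.range t) = ⊤)
    (L : Type) [Field L] [Algebra ℂ L] [Algebra L K] [IsScalarTower ℂ L K] [FiniteDimensional L K]
    (hr : 2 * Module.finrank L K < (N + 1) * (d - n - N)) :
    (kodaira ℂ L n = ⊥ ∧ IsUnirational ℂ L n) ∨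
    (kodaira ℂ L n = n ∧ ∀ (E : IntermediateField ℂ L) (f : ℕ), Algebra.trdeg E L = f →
      GeneralType E L f) := by
  have hessK : Algebra.EssFiniteType ℂ K := by
    rw [← IntermediateField.fg_top_iff]
    classical
    exact ⟨Finset.univ.image t, by
      rw [Finset.coe_image, Finset.coe_univ, Set.image_univ, hgen]⟩
  have hessL : Algebra.EssFiniteType ℂ L := Pool.Agent.TH466.QG.ess_below (K := K)
  have hL : Algebra.trdeg ℂ L = n := Pool.Agent.Y184.NT.trdeg_below (K := K) hK
  have h := Pool.Agent.Results.MP_f72953_ag.ImagesOfHypersurfaces.result hn hd hd' hd'' homogeneous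
    smooth hK ht0 ht hgen L hr
  by_cases hg : GeneralType ℂ L n
  · refine Or.inr ⟨(Pool.Agent.N762.KP.gt_case hn hg).1, fun E f hf => ?_⟩
    have h1 : Algebra.trdeg ℂ E ≤ n := by
      rw [← hL, ← trdeg_add_eq ℂ E (A := L)]
      exact self_le_add_right _ _
    obtain ⟨e, he⟩ := Cardinal.lt_aleph0.1 (h1.trans_lt (Cardinal.natCast_lt_aleph0))
    exact Pool.Agent.N169.VS.easy L n e f E he hf hg
  · have hu : IsUnirational ℂ L n := h.1 hg
    exact Or.inl ⟨(Pool.Agent.N762.KP.unirational_case hn hL hu).1, hu⟩

end Pool.Agent.Results.MP_2ec9e9_ag.ImagesOfHypersurfaces
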